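import Mathlib
import Pool.Agent.H759R2.Kad.Props7

/-! Task Q1: the quotient C*-algebra at an ultrafilter of central projections. -/

open scoped ComplexOrder InnerProductSpace ComplexConjugate
open Finset

noncomputable section

namespace H759R2.Kad

universe u v

namespace QEx

variable {A : Type u} [CStarAlgebra A]

theorem prj_norm {p : A} (hp : Prj p) : ‖p‖ ≤ 1 := by
  have h1 : ‖p‖ * ‖p‖ = ‖p‖ := by
    have := CStarRing.norm_star_mul_self (x := p)
    rw [hp.1, hp.2] at this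
    exact this.symm
  by_contra h
  push Not at h
  nlinarith

/-- the ideal of the elements that vanish at the ultrafilter -/
def I (𝒰 : Set A) (hU : Ult 𝒰) : Ideal A where
  carrier := {x | ∀ ε : ℝ, 0 < ε → ∃ z ∈ 𝒰, ‖z * x‖ ≤ ε}
  zero_mem' := fun ε hε => ⟨1, hU.one, by simpa using hε.le⟩
  add_mem' := by
    intro x y hx hy ε hε
    obtain ⟨z, hz, h1⟩ := hx (ε / 2) (by linarith)
    obtain ⟨z', hz', h2⟩ := hy (ε / 2) (by linarith)
    refine ⟨z * z', hU.mul z hz z' hz', ?_⟩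
    have e1 : z * z' * (x + y) = z' * (z * x) + z * (z' * y) := by
      rw [mul_add, (hU.sub z hz).2 z', mul_assoc, ← (hU.sub z hz).2 z', mul_assoc]
    rw [e1]
    refine (norm_add_le _ _).trans ?_
    have n1 : ‖z' * (z * x)‖ ≤ ‖z * x‖ := by
      refine (norm_mul_le _ _).trans ?_
      have := mul_le_mul_of_nonneg_right (prj_norm (hU.sub z' hz').1) (norm_nonneg (z * x))
      linarith
    have n2 : ‖z * (z' * y)‖ ≤ ‖z' * y‖ := by
      refine (norm_mul_le _ _).trans ?_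
      have := mul_le_mul_of_nonneg_right (prj_norm (hU.sub z hz).1) (norm_nonneg (z' * y))
      linarith
    linarith
  smul_mem' := by
    intro c x hx ε hε
    obtain ⟨z, hz, h1⟩ := hx (ε / (‖c‖ + 1)) (by positivity)
    refine ⟨z, hz, ?_⟩
    have e1 : z * (c • x) = c * (z * x) := by
      rw [smul_eq_mul, ← mul_assoc, (hU.sub z hz).2 c, mul_assoc]
    rw [e1]
    refine (norm_mul_le _ _).trans ?_
    have h0 : (0 : ℝ) < ‖c‖ + 1 := by positivity
    calc ‖c‖ * ‖z * x‖ ≤ (‖c‖ + 1) * (ε / (‖c‖ + 1)) :=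
          mul_le_mul (by linarith) h1 (norm_nonneg _) h0.le
      _ = ε := by field_simp

variable {𝒰 : Set A} (hU : Ult 𝒰)

theorem mem_I {x : A} : x ∈ I 𝒰 hU ↔ ∀ ε : ℝ, 0 < ε → ∃ z ∈ 𝒰, ‖z * x‖ ≤ ε := Iff.rfl

instance : (I 𝒰 hU).IsTwoSided := ⟨by
  intro x c hx ε hε
  obtain ⟨z, hz, h1⟩ := hx (ε / (‖c‖ + 1)) (by positivity)
  refine ⟨z, hz, ?_⟩
  rw [← mul_assoc]
  refine (norm_mul_le _ _).trans ?_
  have h0 : (0 : ℝ) < ‖c‖ + 1 := by positivity
  calc ‖z * x‖ * ‖c‖ ≤ (ε / (‖c‖ + 1)) * (‖c‖ + 1) :=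
        mul_le_mul h1 (by linarith) (norm_nonneg _) (by positivity)
    _ = ε := by field_simp⟩

theorem star_mem {x : A} (hx : x ∈ I 𝒰 hU) : star x ∈ I 𝒰 hU := by
  intro ε hε
  obtain ⟨z, hz, h1⟩ := hx ε hε
  refine ⟨z, hz, ?_⟩
  have e1 : z * star x = star (z * x) := by
    rw [star_mul, (hU.sub z hz).1.1, (hU.sub z hz).2]
  rw [e1, norm_star]
  exact h1

theorem closed : IsClosed ((I 𝒰 hU : Ideal A) : Set A) := by
  rw [← isSeqClosed_iff_isClosed]
  intro f x hf hx ε hε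
  have h1 : ∀ᶠ n in Filter.atTop, dist (f n) x < ε / 2 :=
    (Metric.tendsto_atTop.1 hx (ε / 2) (by linarith)).elim fun N hN =>
      Filter.eventually_atTop.2 ⟨N, hN⟩
  obtain ⟨n, hn⟩ := h1.exists
  obtain ⟨z, hz, h2⟩ := hf n (ε / 2) (by linarith)
  refine ⟨z, hz, ?_⟩
  have e1 : z * x = z * f n + z * (x - f n) := by rw [mul_sub]; abel
  rw [e1]
  refine (norm_add_le _ _).trans ?_
  have n1 : ‖z * (x - f n)‖ ≤ ‖x - f n‖ := by
    refine (norm_mul_le _ _).trans ?_
    have := mul_le_mul_of_nonneg_right (prj_norm (hU.sub z hz).1) (norm_nonneg (x - f n))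
    linarith
  rw [dist_eq_norm, norm_sub_rev] at hn
  linarith

/-- the quotient -/
abbrev F : Type u := A ⧸ I 𝒰 hU

instance instClosed : IsClosed ((I 𝒰 hU : Ideal A) : Set A) := closed hU

theorem mk_surj (y : F hU) : ∃ x : A, Ideal.Quotient.mk (I 𝒰 hU) x = y :=
  Ideal.Quotient.mk_surjective y

/-- upper bound for the norm of the quotient -/
theorem norm_le {z : A} (hz : z ∈ 𝒰) (x : A) :
    ‖(Ideal.Quotient.mk (I 𝒰 hU) x : F hU)‖ ≤ ‖z * x‖ := by
  have h1 : Ideal.Quotient.mk (I 𝒰 hU) x = Ideal.Quotient.mk (I 𝒰 hU) (z * x) := by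
    rw [Ideal.Quotient.eq]
    intro ε hε
    refine ⟨z, hz, ?_⟩
    rw [mul_sub, ← mul_assoc, (hU.sub z hz).1.2, sub_self, norm_zero]
    exact hε.le
  rw [h1]
  exact Submodule.Quotient.norm_mk_le (I 𝒰 hU) (z * x)

/-- lower bound for the norm of the quotient -/
theorem low (x : A) {ε : ℝ} (hε : 0 < ε) :
    ∃ z ∈ 𝒰, ‖z * x‖ ≤ ‖(Ideal.Quotient.mk (I 𝒰 hU) x : F hU)‖ + ε := by
  obtain ⟨y, hy, h1⟩ := Submodule.Quotient.norm_mk_lt
    (Ideal.Quotient.mk (I 𝒰 hU) x : F hU) (half_pos hε)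
  have h2 : x - y ∈ I 𝒰 hU := by
    rw [← Ideal.Quotient.eq]
    exact hy.symm
  obtain ⟨z, hz, h3⟩ := h2 (ε / 2) (by linarith)
  refine ⟨z, hz, ?_⟩
  have e1 : z * x = z * (x - y) + z * y := by rw [mul_sub]; abel
  rw [e1]
  refine (norm_add_le _ _).trans ?_
  have n1 : ‖z * y‖ ≤ ‖y‖ := by
    refine (norm_mul_le _ _).trans ?_
    have := mul_le_mul_of_nonneg_right (prj_norm (hU.sub z hz).1) (norm_nonneg y)
    linarith
  linarith

theorem norm_mul_le' (x y : F hU) : ‖x * y‖ ≤ ‖x‖ * ‖y‖ := by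
  obtain ⟨a, rfl⟩ := mk_surj hU x
  obtain ⟨b, rfl⟩ := mk_surj hU y
  have h1 : ∀ ε : ℝ, 0 < ε → ‖Ideal.Quotient.mk (I 𝒰 hU) a * Ideal.Quotient.mk (I 𝒰 hU) b‖ ≤
      (‖(Ideal.Quotient.mk (I 𝒰 hU) a : F hU)‖ + ε) *
        (‖(Ideal.Quotient.mk (I 𝒰 hU) b : F hU)‖ + ε) := by
    intro ε hε
    obtain ⟨z, hz, h2⟩ := low hU a hε
    obtain ⟨z', hz', h3⟩ := low hU b hε
    rw [← map_mul]
    refine (norm_le hU (hU.mul z hz z' hz') (a * b)).trans ?_
    have e1 : z * z' * (a * b) = z * a * (z' * b) := by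
      rw [mul_assoc, ← mul_assoc z' a b, (hU.sub z' hz').2 a]
      simp only [mul_assoc]
    rw [e1]
    exact (norm_mul_le _ _).trans (mul_le_mul h2 h3 (norm_nonneg _) (by positivity))
  have h4 : Filter.Tendsto (fun ε : ℝ => (‖(Ideal.Quotient.mk (I 𝒰 hU) a : F hU)‖ + ε) *
        (‖(Ideal.Quotient.mk (I 𝒰 hU) b : F hU)‖ + ε)) (nhdsWithin 0 (Set.Ioi 0))
      (nhds (‖(Ideal.Quotient.mk (I 𝒰 hU) a : F hU)‖ *
        ‖(Ideal.Quotient.mk (I 𝒰 hU) b : F hU)‖)) := by
    have : Continuous fun ε : ℝ => (‖(Ideal.Quotient.mk (I 𝒰 hU) a : F hU)‖ + ε) *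
        (‖(Ideal.Quotient.mk (I 𝒰 hU) b : F hU)‖ + ε) := by fun_prop
    have h5 := this.tendsto 0
    rw [add_zero, add_zero] at h5
    exact h5.mono_left nhdsWithin_le_nhds
  exact ge_of_tendsto h4 (Filter.eventually_of_mem self_mem_nhdsWithin fun ε hε => h1 ε hε)

instance instNR : NormedRing (F hU) :=
  { Ideal.Quotient.ring (I 𝒰 hU), Submodule.Quotient.normedAddCommGroup (I 𝒰 hU) with
    norm_mul_le := norm_mul_le' hU }

instance instNA : NormedAlgebra ℂ (F hU) :=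
  { Ideal.Quotient.algebra ℂ (I := I 𝒰 hU) with
    norm_smul_le := fun c x => (Submodule.Quotient.normedSpace (I 𝒰 hU) ℂ).norm_smul_le c x }

instance instStar : Star (F hU) where
  star := Quotient.map' star (by
    intro a b hab
    have h1 : a - b ∈ I 𝒰 hU := (Submodule.quotientRel_def _).1 hab
    refine (Submodule.quotientRel_def _).2 ?_
    rw [← star_sub]
    exact star_mem hU h1)

theorem star_mk (a : A) : star (Ideal.Quotient.mk (I 𝒰 hU) a : F hU) =
    Ideal.Quotient.mk (I 𝒰 hU) (star a) := rfl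

instance instStarRing : StarRing (F hU) where
  star_involutive := by
    intro x
    obtain ⟨a, rfl⟩ := mk_surj hU x
    rw [star_mk, star_mk, star_star]
  star_mul := by
    intro x y
    obtain ⟨a, rfl⟩ := mk_surj hU x
    obtain ⟨b, rfl⟩ := mk_surj hU y
    rw [← map_mul, star_mk, star_mk, star_mk, ← map_mul, star_mul]
  star_add := by
    intro x y
    obtain ⟨a, rfl⟩ := mk_surj hU x
    obtain ⟨b, rfl⟩ := mk_surj hU y
    rw [← map_add, star_mk, star_mk, star_mk, ← map_add, star_add]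

instance instStarModule : StarModule ℂ (F hU) where
  star_smul := by
    intro c x
    obtain ⟨a, rfl⟩ := mk_surj hU x
    change star (Ideal.Quotient.mk (I 𝒰 hU) (c • a)) =
      star c • Ideal.Quotient.mk (I 𝒰 hU) (star a)
    rw [star_mk, star_smul]
    rfl

instance instCStarRing : CStarRing (F hU) where
  norm_mul_self_le := by
    intro x
    obtain ⟨a, rfl⟩ := mk_surj hU x
    refine le_of_forall_pos_le_add fun ε hε => ?_
    rw [star_mk, ← map_mul]
    obtain ⟨z, hz, h1⟩ := low hU (star a * a) hε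
    refine le_trans ?_ h1
    have e1 : z * (star a * a) = star (z * a) * (z * a) := by
      rw [star_mul, (hU.sub z hz).1.1, mul_assoc, ← mul_assoc z z a, (hU.sub z hz).1.2,
        ← mul_assoc, (hU.sub z hz).2 (star a), mul_assoc]
    rw [e1, CStarRing.norm_star_mul_self]
    exact mul_self_le_mul_self (norm_nonneg _) (norm_le hU hz a)

instance instCS : CompleteSpace (F hU) := Submodule.Quotient.completeSpace (I 𝒰 hU)

instance instCSA : CStarAlgebra (F hU) where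

/-- the quotient map -/
def q : A →⋆ₐ[ℂ] F hU where
  toFun := Ideal.Quotient.mk (I 𝒰 hU)
  map_one' := map_one _
  map_mul' := map_mul _
  map_zero' := map_zero _
  map_add' := map_add _
  commutes' := fun c => rfl
  map_star' := fun a => rfl

end QEx

theorem prove7_ex : Q_ex.{u} := by
  intro A _ 𝒰 hU
  refine ⟨QEx.F hU, QEx.instCSA hU, QEx.q hU, hU, Ideal.Quotient.mk_surjective, ?_, ?_⟩
  · intro z hz
    have h1 : Ideal.Quotient.mk (QEx.I 𝒰 hU) z = Ideal.Quotient.mk (QEx.I 𝒰 hU) 1 := by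
      rw [Ideal.Quotient.eq]
      intro ε hε
      refine ⟨z, hz, ?_⟩
      rw [mul_sub, (hU.sub z hz).1.2, mul_one, sub_self, norm_zero]
      exact hε.le
    exact h1
  · intro x ε hε
    exact QEx.low hU x hε

end H759R2.Kad
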