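import Mathlib
import Pool.Agent.H759R2.Kad.Props7

/-! Task R1: norming state multiplicative on central projections. -/

open scoped ComplexOrder InnerProductSpace ComplexConjugate
open Finset

noncomputable section

namespace H759R2.Kad

universe u v

namespace RState

variable {D : Type v} [CStarAlgebra D]

/-- `‖x‖ ^ 2 - x* x` is positive -/
theorem bound_pos (x : D) : ∃ y : D, ((‖x‖ ^ 2 : ℝ) : ℂ) • (1 : D) - star x * x = star y * y := by
  letI := CStarAlgebra.spectralOrder D
  haveI := CStarAlgebra.spectralOrderedRing D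
  have h1 : star x * x ≤ algebraMap ℝ D ‖star x * x‖ :=
    IsSelfAdjoint.le_algebraMap_norm_self (IsSelfAdjoint.star_mul_self x)
  have h2 : 0 ≤ algebraMap ℝ D ‖star x * x‖ - star x * x := sub_nonneg.2 h1
  obtain ⟨y, hy⟩ := CStarAlgebra.nonneg_iff_eq_star_mul_self.1 h2
  refine ⟨y, ?_⟩
  rw [← hy, CStarRing.norm_star_mul_self, ← pow_two, Algebra.algebraMap_eq_smul_one]
  rfl

theorem bound_pos' (b : D) (hb : ∃ x, b = star x * x) :
    ∃ y : D, ((‖b‖ : ℝ) : ℂ) • (1 : D) - b = star y * y := by
  obtain ⟨x, rfl⟩ := hb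
  obtain ⟨y, hy⟩ := bound_pos x
  refine ⟨y, ?_⟩
  rw [← hy, CStarRing.norm_star_mul_self, ← pow_two]

/-- norm one functionals with value one at `1` are positive -/
theorem pos_of_norm (g : D →L[ℂ] ℂ) (hg : ‖g‖ = 1) (h1 : g 1 = 1) (x : D) :
    0 ≤ g (star x * x) := by
  have hn : ∀ a, ‖g a‖ ≤ ‖a‖ := fun a => by
    have := g.le_opNorm a
    rwa [hg, one_mul] at this
  -- self-adjoint elements have real values
  have him : ∀ a : D, star a = a → (g a).im = 0 := by
    intro a ha
    have key : ∀ t : ℝ, 2 * (g a).im * t ≤ ‖a‖ ^ 2 := by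
      intro t
      have e1 : ‖a + (Complex.I * t) • (1 : D)‖ ^ 2 ≤ ‖a‖ ^ 2 + t ^ 2 := by
        rw [pow_two, ← CStarRing.norm_star_mul_self]
        have e2 : star (a + (Complex.I * t) • (1 : D)) * (a + (Complex.I * t) • (1 : D)) =
            a * a + ((t ^ 2 : ℝ) : ℂ) • (1 : D) := by
          rw [star_add, ha, star_smul, star_one, add_mul, mul_add, mul_add, smul_mul_assoc,
            mul_smul_comm, mul_smul_comm, one_mul, mul_one, smul_mul_assoc, one_mul, smul_smul]
          have e3 : star (Complex.I * (t : ℂ)) = -(Complex.I * t) := by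
            simp
          have e4 : Complex.I * (t : ℂ) * -(Complex.I * t) = ((t ^ 2 : ℝ) : ℂ) := by
            push_cast
            linear_combination -(t : ℂ) ^ 2 * Complex.I_sq
          rw [e3, e4, neg_smul]
          abel
        rw [e2]
        refine (norm_add_le _ _).trans ?_
        refine add_le_add ?_ ?_
        · rw [pow_two]
          exact norm_mul_le _ _
        · refine (norm_smul_le _ _).trans ?_
          have h1' : ‖(1 : D)‖ ≤ 1 := by
            rcases subsingleton_or_nontrivial D with h | h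
            · rw [Subsingleton.elim (1 : D) 0, norm_zero]; norm_num
            · rw [CStarRing.norm_one]
          rw [Complex.norm_real, Real.norm_eq_abs, abs_of_nonneg (sq_nonneg t)]
          nlinarith [sq_nonneg t]
      have e5 : ‖g (a + (Complex.I * t) • (1 : D))‖ ^ 2 ≤ ‖a‖ ^ 2 + t ^ 2 :=
        (pow_le_pow_left₀ (norm_nonneg _) (hn _) 2).trans e1
      rw [map_add, map_smul, h1, smul_eq_mul, mul_one, ← Complex.normSq_eq_norm_sq,
        Complex.normSq_apply] at e5
      simp only [Complex.add_re, Complex.mul_re, Complex.I_re, Complex.ofReal_re, zero_mul,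
        Complex.I_im, Complex.ofReal_im, mul_zero, sub_zero, add_zero, Complex.add_im,
        Complex.mul_im, one_mul, zero_add] at e5
      nlinarith [sq_nonneg (g a).re, sq_nonneg (g a).im]
    by_contra h0
    have k1 := key ((‖a‖ ^ 2 + 1) / (2 * (g a).im))
    have k2 : 2 * (g a).im * ((‖a‖ ^ 2 + 1) / (2 * (g a).im)) = ‖a‖ ^ 2 + 1 := by
      field_simp
    linarith
  set b := star x * x with hb
  have hbs : star b = b := by rw [hb, star_mul, star_star]
  have hre : |‖b‖ - (g b).re| ≤ ‖b‖ := by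
    letI := CStarAlgebra.spectralOrder D
    haveI := CStarAlgebra.spectralOrderedRing D
    have hb0 : 0 ≤ b := star_mul_self_nonneg x
    have h2 : b ≤ algebraMap ℝ D ‖b‖ :=
      IsSelfAdjoint.le_algebraMap_norm_self (IsSelfAdjoint.star_mul_self x)
    have h3 : 0 ≤ algebraMap ℝ D ‖b‖ - b := sub_nonneg.2 h2
    have h4 : ‖algebraMap ℝ D ‖b‖ - b‖ ≤ ‖b‖ := by
      have h5 : algebraMap ℝ D ‖b‖ - b ≤ algebraMap ℝ D ‖b‖ := sub_le_self _ hb0
      refine (CStarAlgebra.norm_le_norm_of_nonneg_of_le h3 h5).trans ?_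
      rw [Algebra.algebraMap_eq_smul_one]
      refine (norm_smul_le _ _).trans ?_
      have h1' : ‖(1 : D)‖ ≤ 1 := by
        rcases subsingleton_or_nontrivial D with h | h
        · rw [Subsingleton.elim (1 : D) 0, norm_zero]; norm_num
        · rw [CStarRing.norm_one]
      rw [norm_norm]
      nlinarith [norm_nonneg b]
    have h6 := (hn (algebraMap ℝ D ‖b‖ - b)).trans h4
    have h7 : g (algebraMap ℝ D ‖b‖ - b) = (‖b‖ : ℂ) - g b := by
      rw [map_sub, Algebra.algebraMap_eq_smul_one]
      congr 1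
      have : (‖b‖ : ℝ) • (1 : D) = ((‖b‖ : ℝ) : ℂ) • (1 : D) := rfl
      rw [this, map_smul, h1, smul_eq_mul, mul_one]
    rw [h7] at h6
    refine le_trans ?_ h6
    have := Complex.abs_re_le_norm ((‖b‖ : ℂ) - g b)
    simpa using this
  rw [Complex.le_def]
  refine ⟨?_, (him b hbs).symm⟩
  have := (abs_le.1 hre).2
  simp only [Complex.zero_re]
  linarith

/-- existence of a norming state -/
theorem exists_norming (b : D) (hb : ∃ x, b = star x * x) (hb0 : b ≠ 0) :
    ∃ g : D →L[ℂ] ℂ, (∀ a, 0 ≤ g (star a * a)) ∧ g 1 = 1 ∧ g b = ((‖b‖ : ℝ) : ℂ) := by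
  have hbn : 0 < ‖b‖ := norm_pos_iff.2 hb0
  have hnt : Nontrivial D := ⟨b, 0, hb0⟩
  set s : D := ((‖b‖ : ℝ) : ℂ) • (1 : D) + b with hs
  have hnorm : ‖s‖ = 2 * ‖b‖ := by
    refine le_antisymm ?_ ?_
    · refine (norm_add_le _ _).trans ?_
      rw [norm_smul, CStarRing.norm_one, mul_one, Complex.norm_real, norm_norm]
      linarith
    · letI := CStarAlgebra.spectralOrder D
      haveI := CStarAlgebra.spectralOrderedRing D
      obtain ⟨x, hx⟩ := hb
      have hb0' : 0 ≤ b := by rw [hx]; exact star_mul_self_nonneg x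
      have h2 : b ≤ algebraMap ℝ D ‖b‖ := by
        refine IsSelfAdjoint.le_algebraMap_norm_self ?_
        rw [hx]
        exact IsSelfAdjoint.star_mul_self x
      have h3 : (2 : ℝ) • b ≤ s := by
        rw [two_smul, hs]
        refine add_le_add ?_ le_rfl
        rw [Algebra.algebraMap_eq_smul_one] at h2
        exact h2
      have h4 : 0 ≤ (2 : ℝ) • b := by
        rw [two_smul]
        exact add_nonneg hb0' hb0'
      have h5 := CStarAlgebra.norm_le_norm_of_nonneg_of_le h4 h3
      rw [norm_smul, Real.norm_eq_abs, abs_of_pos (by norm_num : (0 : ℝ) < 2)] at h5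
      exact h5
  have hs0 : s ≠ 0 := by
    intro h
    rw [h, norm_zero] at hnorm
    linarith
  obtain ⟨g, hg1, hg2'⟩ := exists_dual_vector ℂ s (norm_ne_zero_iff.2 hs0)
  have hg2 : g s = ((‖s‖ : ℝ) : ℂ) := hg2'
  have e1 : (‖b‖ : ℂ) * g 1 + g b = 2 * ‖b‖ := by
    rw [hnorm, hs, map_add, map_smul, smul_eq_mul] at hg2
    rw [hg2]
    push_cast
    ring
  have n1 : ‖g 1‖ ≤ 1 := by
    have := g.le_opNorm 1
    rwa [hg1, CStarRing.norm_one, one_mul] at this
  have n2 : ‖g b‖ ≤ ‖b‖ := by
    have := g.le_opNorm b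
    rwa [hg1, one_mul] at this
  have r1 : (g 1).re ≤ 1 := (Complex.re_le_norm _).trans n1
  have r2 : (g b).re ≤ ‖b‖ := (Complex.re_le_norm _).trans n2
  have e2 : ‖b‖ * (g 1).re + (g b).re = 2 * ‖b‖ := by
    have := congrArg Complex.re e1
    simpa using this
  have r3 : (g 1).re = 1 := by nlinarith
  have r4 : (g b).re = ‖b‖ := by rw [r3] at e2; linarith
  have i1 : g 1 = 1 := by
    have h5 : (g 1).re ^ 2 + (g 1).im ^ 2 ≤ 1 := by
      have := pow_le_pow_left₀ (norm_nonneg _) n1 2
      rw [← Complex.normSq_eq_norm_sq, Complex.normSq_apply] at this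
      nlinarith
    rw [r3] at h5
    have h6 : (g 1).im = 0 := by
      have : (g 1).im ^ 2 ≤ 0 := by linarith
      exact pow_eq_zero_iff (two_ne_zero) |>.1 (le_antisymm this (sq_nonneg _))
    exact Complex.ext r3 h6
  have i2 : g b = ((‖b‖ : ℝ) : ℂ) := by
    rw [i1, mul_one] at e1
    linear_combination e1
  exact ⟨g, pos_of_norm g hg1 i1, i1, i2⟩

section positive

variable (f : D → ℂ) (hadd : ∀ a b, f (a + b) = f a + f b) (hsm : ∀ (c : ℂ) a, f (c • a) = c * f a)
  (hpos : ∀ a, 0 ≤ f (star a * a)) (hone : f 1 = 1)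

include hadd hsm hpos hone

/-- positive functionals are hermitian -/
theorem herm (a : D) : f (star a) = conj (f a) := by
  have h1 := hpos (a + 1)
  have h2 := hpos (a + Complex.I • (1 : D))
  have h3 := hpos a
  have e1 : star (a + 1) * (a + 1) = star a * a + star a + a + 1 := by
    rw [star_add, star_one, add_mul, mul_add, one_mul, mul_one]
    abel
  have e2 : star (a + Complex.I • (1 : D)) * (a + Complex.I • (1 : D)) =
      star a * a + Complex.I • star a + (-Complex.I) • a + 1 := by
    rw [star_add, star_smul, star_one, add_mul, mul_add, mul_add, smul_mul_assoc, mul_smul_comm,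
      mul_smul_comm, one_mul, mul_one, smul_mul_assoc, one_mul, smul_smul]
    have e3 : star Complex.I = -Complex.I := by simp
    rw [e3]
    have e4 : Complex.I * -Complex.I = 1 := by rw [mul_neg, Complex.I_mul_I, neg_neg]
    rw [e4, one_smul]
    abel
  rw [e1, hadd, hadd, hadd, hone] at h1
  rw [e2, hadd, hadd, hadd, hsm, hsm, hone] at h2
  rw [Complex.le_def] at h1 h2 h3
  have i1 := h1.2
  have i2 := h2.2
  have i3 := h3.2
  simp only [Complex.zero_im, Complex.add_im, Complex.one_im, Complex.mul_im, Complex.I_re,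
    Complex.I_im, Complex.neg_re, Complex.neg_im] at i1 i2 i3
  refine Complex.ext ?_ ?_
  · rw [Complex.conj_re]
    linarith
  · rw [Complex.conj_im]
    linarith

theorem cs (a : D) : ‖f a‖ ^ 2 ≤ (f (star a * a)).re := by
  have h1 := hpos (a + (-(f a)) • (1 : D))
  have hh := herm f hadd hsm hpos hone a
  have e2 : star (a + (-(f a)) • (1 : D)) * (a + (-(f a)) • (1 : D)) =
      star a * a + (-(f a)) • star a + (-conj (f a)) • a + (conj (f a) * f a) • 1 := by
    rw [star_add, star_smul, star_one, add_mul, mul_add, mul_add, smul_mul_assoc, mul_smul_comm,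
      mul_smul_comm, one_mul, mul_one, smul_mul_assoc, one_mul, smul_smul]
    have e3 : star (-(f a)) = -conj (f a) := by
      rw [star_neg]
      rfl
    rw [e3, neg_mul_neg, mul_comm (f a)]
    abel
  rw [e2, hadd, hadd, hadd, hsm, hsm, hsm, hone, hh] at h1
  have h2 := (Complex.le_def.1 h1).1
  have e3 : f (star a * a) + -f a * conj (f a) + -conj (f a) * f a + conj (f a) * f a * 1 =
      f (star a * a) - ((‖f a‖ ^ 2 : ℝ) : ℂ) := by
    have : conj (f a) * f a = ((‖f a‖ ^ 2 : ℝ) : ℂ) := by
      rw [mul_comm, Complex.mul_conj, Complex.normSq_eq_norm_sq]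
    linear_combination -this
  rw [e3] at h2
  simp only [Complex.zero_re, Complex.sub_re, Complex.ofReal_re] at h2
  linarith

theorem norm_bound (a : D) : ‖f a‖ ≤ ‖a‖ := by
  obtain ⟨y, hy⟩ := bound_pos a
  have h1 := (Complex.le_def.1 (hpos y)).1
  have h0 : ∀ a b, f (a - b) = f a - f b := by
    intro a b
    have := hadd a ((-1 : ℂ) • b)
    rw [hsm, neg_one_smul, ← sub_eq_add_neg] at this
    rw [this]
    ring
  rw [← hy, h0, hsm, hone, mul_one] at h1
  simp only [Complex.zero_re, Complex.sub_re, Complex.ofReal_re] at h1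
  have h2 := cs f hadd hsm hpos hone a
  exact le_of_sq_le_sq (by linarith) (norm_nonneg _)

end positive

end RState

theorem prove7_state : R_state.{v} := by
  intro D _ E hE hE1 hEm hEc d hd
  set b : D := star d * d with hb
  have hb0 : b ≠ 0 := by
    rw [hb]
    intro h
    exact hd ((CStarRing.star_mul_self_eq_zero_iff d).1 h)
  have hbn : ‖b‖ = ‖d‖ ^ 2 := by rw [hb, CStarRing.norm_star_mul_self, pow_two]
  obtain ⟨y, hy⟩ := RState.bound_pos' b ⟨d, rfl⟩
  let K : Set (D → ℂ) := {f | (∀ a b, f (a + b) = f a + f b) ∧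
    (∀ (c : ℂ) a, f (c • a) = c * f a) ∧ (∀ a, 0 ≤ f (star a * a)) ∧ f 1 = 1 ∧
    f b = ((‖b‖ : ℝ) : ℂ)}
  have hKne : K.Nonempty := by
    obtain ⟨g, h1, h2, h3⟩ := RState.exists_norming b ⟨d, rfl⟩ hb0
    exact ⟨g, fun a b => map_add g a b, fun c a => by rw [map_smul, smul_eq_mul], h1, h2, h3⟩
  have hKc : IsCompact K := by
    have hcl : IsClosed K := by
      have c1 : IsClosed {f : D → ℂ | ∀ a b, f (a + b) = f a + f b} := by
        simp only [Set.ofPred_forall]
        refine isClosed_iInter fun a => isClosed_iInter fun b => isClosed_eq ?_ ?_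
        · exact continuous_apply _
        · exact (continuous_apply _).add (continuous_apply _)
      have c2 : IsClosed {f : D → ℂ | ∀ (c : ℂ) a, f (c • a) = c * f a} := by
        simp only [Set.ofPred_forall]
        refine isClosed_iInter fun a => isClosed_iInter fun b => isClosed_eq ?_ ?_
        · exact continuous_apply _
        · exact continuous_const.mul (continuous_apply _)
      have c3 : IsClosed {f : D → ℂ | ∀ a, 0 ≤ f (star a * a)} := by
        simp only [Set.ofPred_forall]
        refine isClosed_iInter fun a => ?_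
        have : {f : D → ℂ | 0 ≤ f (star a * a)} = (fun f : D → ℂ => f (star a * a)) ⁻¹'
            {z : ℂ | 0 ≤ z.re ∧ 0 = z.im} := by
          ext f
          simp only [Set.mem_ofPred_eq, Set.mem_preimage, Complex.le_def, Complex.zero_re,
            Complex.zero_im]
        rw [this]
        refine IsClosed.preimage (continuous_apply _) ?_
        exact (isClosed_le continuous_const Complex.continuous_re).inter
          (isClosed_eq continuous_const Complex.continuous_im)
      have c4 : IsClosed {f : D → ℂ | f 1 = 1} := isClosed_eq (continuous_apply _) continuous_const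
      have c5 : IsClosed {f : D → ℂ | f b = ((‖b‖ : ℝ) : ℂ)} :=
        isClosed_eq (continuous_apply _) continuous_const
      exact c1.inter (c2.inter (c3.inter (c4.inter c5)))
    have hsub : K ⊆ Set.univ.pi fun a : D => Metric.closedBall (0 : ℂ) ‖a‖ := by
      intro f hf a _
      rw [mem_closedBall_zero_iff]
      exact RState.norm_bound f hf.1 hf.2.1 hf.2.2.1 hf.2.2.2.1 a
    exact (isCompact_univ_pi fun a => isCompact_closedBall (0 : ℂ) ‖a‖).of_isClosed_subset hcl hsub
  obtain ⟨f, hf⟩ := hKc.extremePoints_nonempty hKne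
  rw [mem_extremePoints] at hf
  obtain ⟨⟨hadd, hsm, hpos, hone, hfb⟩, hext⟩ := hf
  have hsub : ∀ a b, f (a - b) = f a - f b := by
    intro a b
    have := hadd a ((-1 : ℂ) • b)
    rw [hsm, neg_one_smul, ← sub_eq_add_neg] at this
    rw [this]
    ring
  -- positivity on corners
  have hcpos : ∀ e : D, CPrj e → ∀ a, 0 ≤ f (e * (star a * a)) := by
    intro e he a
    have e1 : e * (star a * a) = star (e * a) * (e * a) := by
      rw [star_mul, he.1.1, mul_assoc, ← mul_assoc e e a, he.1.2, ← mul_assoc, he.2 (star a),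
        mul_assoc]
    rw [e1]
    exact hpos _
  have hc1 : ∀ e : D, CPrj e → CPrj (1 - e) := by
    intro e he
    refine ⟨⟨?_, ?_⟩, fun a => ?_⟩
    · rw [star_sub, star_one, he.1.1]
    · rw [mul_sub, mul_one, sub_mul, one_mul, he.1.2, sub_self, sub_zero]
    · rw [sub_mul, mul_sub, one_mul, mul_one, he.2 a]
  refine ⟨⟨⟨f, hadd⟩, fun c a => hsm c a⟩, hpos, hone, ?_, ?_⟩
  · change f b = _
    rw [hfb, hbn]
  · intro e heE
    change f e = 0 ∨ f e = 1
    have he := hE e heE
    by_contra hcon
    push Not at hcon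
    obtain ⟨hne0, hne1⟩ := hcon
    have hfe : 0 ≤ f e := by
      have := hcpos e he 1
      rwa [star_one, mul_one, mul_one] at this
    have hfe1 : 0 ≤ f (1 - e) := by
      have := hcpos (1 - e) (hc1 e he) 1
      rwa [star_one, mul_one, mul_one] at this
    set t : ℝ := (f e).re with ht
    have hft : f e = (t : ℂ) := by
      refine Complex.ext ?_ ?_
      · simp [ht]
      · have := (Complex.le_def.1 hfe).2
        simp only [Complex.zero_im] at this
        rw [← this]
        simp
    have ht0 : 0 < t := by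
      have h1 := (Complex.le_def.1 hfe).1
      simp only [Complex.zero_re] at h1
      rcases h1.lt_or_eq with h2 | h2
      · exact h2
      · exact absurd (by rw [hft, ht, ← h2]; simp) hne0
    have hf1e : f (1 - e) = ((1 - t : ℝ) : ℂ) := by
      rw [hsub, hone, hft]
      push_cast
      ring
    have ht1 : t < 1 := by
      have h1 := (Complex.le_def.1 hfe1).1
      rw [hf1e] at h1
      simp only [Complex.zero_re, Complex.ofReal_re] at h1
      rcases (sub_nonneg.1 h1).lt_or_eq with h2 | h2
      · exact h2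
      · exact absurd (by rw [hft, h2]; simp) hne1
    -- general construction
    have hgen : ∀ (e : D) (s : ℝ), CPrj e → 0 < s → f e = (s : ℂ) →
        f (e * b) = ((‖b‖ : ℝ) : ℂ) * f e → (fun a => ((s : ℂ)⁻¹) * f (e * a)) ∈ K := by
      intro e s he hs hfs hbb
      have hs0 : (s : ℂ) ≠ 0 := by exact_mod_cast hs.ne'
      refine ⟨fun a b => ?_, fun c a => ?_, fun a => ?_, ?_, ?_⟩
      · change _ * f (e * (a + b)) = _
        rw [mul_add, hadd, mul_add]
      · change _ * f (e * (c • a)) = _
        rw [mul_smul_comm, hsm]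
        ring
      · change 0 ≤ ((s : ℂ)⁻¹) * f (e * (star a * a))
        refine mul_nonneg ?_ (hcpos e he a)
        rw [← Complex.ofReal_inv]
        exact_mod_cast (inv_pos.2 hs).le
      · change ((s : ℂ)⁻¹) * f (e * 1) = 1
        rw [mul_one, hfs, inv_mul_cancel₀ hs0]
      · change ((s : ℂ)⁻¹) * f (e * b) = _
        rw [hbb, hfs]
        field_simp
    -- values at `b`
    have p1 := hcpos e he y
    have p2 := hcpos (1 - e) (hc1 e he) y
    rw [← hy] at p1 p2
    have q1 : f (e * (((‖b‖ : ℝ) : ℂ) • (1 : D) - b)) = ((‖b‖ : ℝ) : ℂ) * f e - f (e * b) := by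
      rw [mul_sub, hsub, mul_smul_comm, hsm, mul_one]
    have q2 : f ((1 - e) * (((‖b‖ : ℝ) : ℂ) • (1 : D) - b)) =
        ((‖b‖ : ℝ) : ℂ) * f (1 - e) - f ((1 - e) * b) := by
      rw [mul_sub, hsub, mul_smul_comm, hsm, mul_one]
    have q3 : f ((1 - e) * b) = ((‖b‖ : ℝ) : ℂ) - f (e * b) := by
      rw [sub_mul, one_mul, hsub, hfb]
    have q4 : f (1 - e) = 1 - f e := by rw [hsub, hone]
    rw [q1] at p1
    rw [q2, q3, q4] at p2
    have hz : ((‖b‖ : ℝ) : ℂ) * f e - f (e * b) = 0 := by
      refine le_antisymm ?_ p1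
      have : ((‖b‖ : ℝ) : ℂ) * (1 - f e) - (((‖b‖ : ℝ) : ℂ) - f (e * b)) =
          -(((‖b‖ : ℝ) : ℂ) * f e - f (e * b)) := by ring
      rw [this] at p2
      exact neg_nonneg.1 p2
    have hb1 : f (e * b) = ((‖b‖ : ℝ) : ℂ) * f e := by
      rw [sub_eq_zero] at hz
      exact hz.symm
    have hb2 : f ((1 - e) * b) = ((‖b‖ : ℝ) : ℂ) * f (1 - e) := by
      rw [q3, q4, hb1]
      ring
    have m1 := hgen e t he ht0 hft hb1
    have m2 := hgen (1 - e) (1 - t) (hc1 e he) (by linarith) hf1e hb2
    have hseg : f ∈ openSegment ℝ (fun a => ((t : ℂ)⁻¹) * f (e * a))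
        (fun a => (((1 - t : ℝ) : ℂ)⁻¹) * f ((1 - e) * a)) := by
      refine ⟨t, 1 - t, ht0, by linarith, by ring, ?_⟩
      funext a
      have ht0' : (t : ℂ) ≠ 0 := by exact_mod_cast ht0.ne'
      have ht1' : ((1 - t : ℝ) : ℂ) ≠ 0 := by
        have : (1 - t : ℝ) ≠ 0 := by linarith
        exact_mod_cast this
      change (t : ℝ) • (((t : ℂ)⁻¹) * f (e * a)) +
        (1 - t : ℝ) • ((((1 - t : ℝ) : ℂ)⁻¹) * f ((1 - e) * a)) = f a
      rw [Complex.real_smul, Complex.real_smul, ← mul_assoc, ← mul_assoc, mul_inv_cancel₀ ht0',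
        mul_inv_cancel₀ ht1', one_mul, one_mul, ← hadd, ← add_mul, add_sub_cancel, one_mul]
    have hx := (hext _ m1 _ m2 hseg).1
    have hx2 := congrFun hx e
    have ht0' : (t : ℂ) ≠ 0 := by exact_mod_cast ht0.ne'
    have hx3 : ((t : ℂ)⁻¹) * f (e * e) = f e := hx2
    rw [he.1.2, hft, inv_mul_cancel₀ ht0'] at hx3
    exact hne1 (by rw [hft, ← hx3])

end H759R2.Kad
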